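import Pool.Agent.Y993.HP.All

/-!
# The limit constant for longest monotone subsequences in random high-dimensional permutations

Full answer to Q1 (positive): for every `k ≥ 1` there is a constant `c_k > 0` such that the length
`H` of the longest monotone subsequence of a uniformly random `k`-dimensional permutation of order
`n` satisfies `H n ^ (-k/(k+1)) → c_k` in probability.

Idea of the proof. The uniform law is invariant under permutations of the `n` values of each of the
`k + 1` coordinates, so it is enough to treat ONE fixed permutation `A` whose values are relabelled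
by independent uniform labels, uniformly in `A`. Two points of `A` which share a coordinate are so
rare that the configuration in a box which contains `O(1)` points converges to a Poisson process
(factorial moments). Lower bound: concatenation of boxes along the diagonal and Chebyshev. Upper
bound: a long chain is cut into pieces in boxes with disjoint sides, up to a small proportion of its
points (first moment bound for thin slabs); chains in boxes with disjoint sides are negatively
dependent, the variance in one box is bounded by the Efron-Stein inequality, and the number of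
choices of the cuts is exponential in the number of pieces, with a constant which does not depend on
the length of the pieces.

Parts of the proof were written by helper10 (cardinalities), helper469 (negative dependence,
Efron-Stein, variance), helper855 (negative dependence of boxes, probabilities), helper401 (first
moment), helper495 (cutting), helper945 (from labels to permutations), helper237 (ties), helper390
(relabelling invariance), helper794 (existence, positivity), helper409 (Newton expansion, bound for
the constant), helper151 (adding a point, generic subsets), helper385 (pairs), helper486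
(non-generic configurations), helper994 (exchangeability), helper930 (local limit), helper328
(exponential moment of a box), helper275 (lower bound), helper993 (upper bound, assembly).
-/

set_option autoImplicit false

namespace Pool.Agent.Results.MP_f702fa_pr.LimitConstant

open Finset Filter

/-- `(0,1)`-arrays indexed by `[n]^(k+1)` -/
abbrev Arr (k n : ℕ) : Type := (Fin (k + 1) → Fin n) → Fin 2

/-- `A` is an order-`n` `k`-dimensional permutation: every line (all coordinates of `α` but the
`i`-th fixed) contains exactly one entry equal to `1` -/
def IsPermutation {k n : ℕ} (A : Arr k n) : Prop :=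
  ∀ (i : Fin (k + 1)) (α : Fin (k + 1) → Fin n), ∃! x : Fin n, A (Function.update α i x) = 1

open Classical in
/-- the set `L_n^k` of the order-`n` `k`-dimensional permutations -/
noncomputable def Perms (k n : ℕ) : Finset (Arr k n) := Finset.univ.filter (fun A => IsPermutation A)

/-- the length of the longest monotone subsequence of `A`: a sequence of positions with entry `1`
such that every coordinate is strictly increasing or strictly decreasing -/
noncomputable def longest {k n : ℕ} (A : Arr k n) : ℕ :=
  sSup {m : ℕ | ∃ f : Fin m → (Fin (k + 1) → Fin n), (∀ a, A (f a) = 1) ∧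
    ∀ j, StrictMono (fun a => f a j) ∨ StrictAnti (fun a => f a j)}

open Classical in
/-- probability of `E` for a uniformly random element of `L_n^k` -/
noncomputable def prob (k n : ℕ) (E : Arr k n → Prop) : ℝ :=
  (((Perms k n).filter (fun A => E A)).card : ℝ) / ((Perms k n).card : ℝ)

/-- the support of an array -/
def supp {k n : ℕ} (A : Arr k n) : Finset (Fin (k + 1) → Fin n) :=
  Finset.univ.filter (fun α => A α = 1)

theorem mem_supp {k n : ℕ} (A : Arr k n) (α : Fin (k + 1) → Fin n) : α ∈ supp A ↔ A α = 1 := by
  unfold supp
  simp

theorem supp_inj {k n : ℕ} : Function.Injective (supp : Arr k n → _) := by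
  intro A B h
  funext α
  have h1 : A α = 1 ↔ B α = 1 := by rw [← mem_supp, ← mem_supp, h]
  generalize A α = a at h1
  generalize B α = b at h1
  revert a b
  decide

theorem supp_surj {k n : ℕ} (S : Finset (Fin (k + 1) → Fin n)) : ∃ A : Arr k n, supp A = S := by
  refine ⟨fun α => if α ∈ S then 1 else 0, ?_⟩
  ext α
  rw [mem_supp]
  by_cases h : α ∈ S <;> simp [h]

theorem isPerm_supp {k n : ℕ} (A : Arr k n) :
    Pool.Agent.Y993.HP.IsPerm (supp A) ↔ IsPermutation A := by
  unfold Pool.Agent.Y993.HP.IsPerm IsPermutation
  simp only [mem_supp]

theorem mem_Perms {k n : ℕ} (A : Arr k n) : A ∈ Perms k n ↔ IsPermutation A := by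
  unfold Perms
  simp

theorem mem_LL {d n : ℕ} (S : Finset (Fin d → Fin n)) :
    S ∈ Pool.Agent.Y993.HP.LL d n ↔ Pool.Agent.Y993.HP.IsPerm S := by
  unfold Pool.Agent.Y993.HP.LL
  simp

theorem longest_supp {k n : ℕ} (A : Arr k n) : Pool.Agent.Y993.HP.HH (supp A) = longest A := by
  unfold Pool.Agent.Y993.HP.HH longest
  simp only [mem_supp]

theorem image_Perms (k n : ℕ) : (Perms k n).image supp = Pool.Agent.Y993.HP.LL (k + 1) n := by
  ext S
  rw [Finset.mem_image, mem_LL]
  constructor
  · rintro ⟨A, hA, rfl⟩
    exact (isPerm_supp A).mpr ((mem_Perms A).mp hA)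
  · intro hS
    obtain ⟨A, rfl⟩ := supp_surj S
    exact ⟨A, (mem_Perms A).mpr ((isPerm_supp A).mp hS), rfl⟩

open Classical in
theorem card_filter_eq (k n : ℕ) (E : ℕ → Prop) :
    ((Perms k n).filter (fun A => E (longest A))).card =
      ((Pool.Agent.Y993.HP.LL (k + 1) n).filter
        (fun S => E (Pool.Agent.Y993.HP.HH S))).card := by
  rw [← image_Perms, Finset.filter_image, Finset.card_image_of_injective _ supp_inj]
  simp only [longest_supp]

/-- **Limit constant for longest monotone subsequences in random high-dimensional permutations.**
For every `k ≥ 1` there are `k`-dimensional permutations of every order `n ≥ 1`, and there is a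
constant `c > 0` such that the length of the longest monotone subsequence of a uniformly random
`k`-dimensional permutation of order `n`, divided by `n ^ (k/(k+1))`, converges to `c` in
probability as `n → ∞`. -/
theorem result : ∀ k : ℕ, 1 ≤ k → (∀ n : ℕ, 1 ≤ n → (Perms k n).Nonempty) ∧
    ∃ c : ℝ, 0 < c ∧ ∀ ε : ℝ, 0 < ε →
      Tendsto (fun n : ℕ => prob k n
        (fun A => ε < |(longest A : ℝ) * (n : ℝ) ^ (-((k : ℝ) / ((k : ℝ) + 1))) - c|))
        atTop (nhds 0) := by
  intro k hk
  have hne : ∀ n : ℕ, 1 ≤ n → (Perms k n).Nonempty := by
    intro n hn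
    obtain ⟨S, hS⟩ := Pool.Agent.Y993.HP.h_exi k n hk hn
    obtain ⟨A, rfl⟩ := supp_surj S
    exact ⟨A, (mem_Perms A).mpr ((isPerm_supp A).mp hS)⟩
  refine ⟨hne, ?_⟩
  obtain ⟨c, hc, h⟩ := Pool.Agent.Y993.HP.h_fin k hk
  refine ⟨c, hc, fun ε hε => ?_⟩
  rw [Metric.tendsto_atTop]
  intro δ hδ
  obtain ⟨n0, hn0⟩ := h ε hε (δ / 2) (by positivity)
  refine ⟨max n0 1, fun n hn => ?_⟩
  have hn1 : n0 ≤ n := (le_max_left _ _).trans hn
  have hn2 : 1 ≤ n := (le_max_right _ _).trans hn
  have h1 := hn0 n hn1
  have hpos : (0 : ℝ) < ((Perms k n).card : ℝ) := by
    exact_mod_cast Finset.card_pos.mpr (hne n hn2)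
  have h2 : (Pool.Agent.Y993.HP.LL (k + 1) n).card = (Perms k n).card := by
    rw [← image_Perms, Finset.card_image_of_injective _ supp_inj]
  rw [h2] at h1
  have h0 : 0 ≤ prob k n
      (fun A => ε < |(longest A : ℝ) * (n : ℝ) ^ (-((k : ℝ) / ((k : ℝ) + 1))) - c|) := by
    unfold prob
    positivity
  rw [Real.dist_eq, sub_zero, abs_of_nonneg h0]
  have h3 : prob k n
      (fun A => ε < |(longest A : ℝ) * (n : ℝ) ^ (-((k : ℝ) / ((k : ℝ) + 1))) - c|) ≤ δ / 2 := by
    unfold prob
    rw [div_le_iff₀ hpos]
    refine le_trans (le_of_eq (congrArg (Nat.cast : ℕ → ℝ) ?_)) h1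
    have h4 := card_filter_eq k n
      (fun l => ε < |(l : ℝ) * (n : ℝ) ^ (-((k : ℝ) / ((k : ℝ) + 1))) - c|)
    convert h4 using 2
  linarith

end Pool.Agent.Results.MP_f702fa_pr.LimitConstant
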